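import Pool.Agent.H7.BAA.Strong

/-!
A commutative semisimple Banach algebra with a contractive approximate identity of idempotents
that is boundedly approximately amenable but not boundedly approximately contractible.
-/

set_option autoImplicit false

open Filter Topology

namespace Pool.Agent.Results.MP_0a1835_an.CommutativeExample

section

variable {A : Type} [NonUnitalNormedRing A] [NormedSpace ℂ A]
variable {X : Type} [NormedAddCommGroup X] [NormedSpace ℂ X]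

/-- `L` and `R` are the left and the right action of an `A`-bimodule. -/
def IsBimod (L R : A →L[ℂ] X →L[ℂ] X) : Prop :=
  (∀ (a b : A) (x : X), L (a * b) x = L a (L b x)) ∧
  (∀ (a b : A) (x : X), R (a * b) x = R b (R a x)) ∧
  ∀ (a b : A) (x : X), L a (R b x) = R b (L a x)

/-- `D : A -> X` is a derivation: `D(ab) = a D(b) + D(a) b`. -/
def IsDer (L R : A →L[ℂ] X →L[ℂ] X) (D : A →L[ℂ] X) : Prop :=
  ∀ a b : A, D (a * b) = L a (D b) + R b (D a)

/-- `D` is boundedly approximately inner: a net of inner derivations with bounded norms converges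
to `D` pointwise in norm. -/
def BddApproxInner (L R : A →L[ℂ] X →L[ℂ] X) (D : A →L[ℂ] X) : Prop :=
  ∃ C : ℝ, ∀ (F : Finset A) (ε : ℝ), 0 < ε →
    ∃ ξ : X, (∀ a : A, ‖L a ξ - R a ξ‖ ≤ C * ‖a‖) ∧ ∀ a ∈ F, ‖D a - (L a ξ - R a ξ)‖ < ε

/-- `D : A -> X*` is a derivation into the dual bimodule: `D(ab) = a D(b) + D(a) b`, where
`(a f)(x) = f(xa)` and `(f a)(x) = f(ax)`. -/
def IsDualDer (L R : A →L[ℂ] X →L[ℂ] X) (D : A →L[ℂ] (X →L[ℂ] ℂ)) : Prop :=
  ∀ a b : A, D (a * b) = (D b).comp (R a) + (D a).comp (L b)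

/-- The inner derivation `a -> a f - f a` of the dual bimodule. -/
noncomputable def adDual (L R : A →L[ℂ] X →L[ℂ] X) (f : X →L[ℂ] ℂ) (a : A) : X →L[ℂ] ℂ :=
  f.comp (R a) - f.comp (L a)

/-- Inner derivations that agree with `D` on `e_n A`, have norm at most
`(1 + 2 |L| + 2 |R|) |D|` and converge to `D` pointwise in norm. -/
def SeqInner (e : ℕ → A) (L R : A →L[ℂ] X →L[ℂ] X) (D : A →L[ℂ] (X →L[ℂ] ℂ)) : Prop :=
  ∃ f : ℕ → (X →L[ℂ] ℂ),
    (∀ n a, ‖adDual L R (f n) a‖ ≤ ‖D‖ * (1 + 2 * ‖L‖ + 2 * ‖R‖) * ‖a‖) ∧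
    (∀ n a, adDual L R (f n) (e n * a) = D (e n * a)) ∧
    ∀ a, Tendsto (fun n => adDual L R (f n) a) atTop (𝓝 (D a))

end

/-- Bounded approximate contractibility: every continuous derivation into a Banach bimodule is
boundedly approximately inner. -/
def BddApproxContractible (A : Type) [NonUnitalNormedRing A] [NormedSpace ℂ A] : Prop :=
  ∀ (X : Type) [NormedAddCommGroup X] [NormedSpace ℂ X] [CompleteSpace X]
    (L R : A →L[ℂ] X →L[ℂ] X) (D : A →L[ℂ] X), IsBimod L R → IsDer L R D → BddApproxInner L R D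

/-- Every continuous derivation into a dual bimodule satisfies `SeqInner`; in particular `A` is
boundedly approximately amenable. -/
def SeqAmenable (A : Type) [NonUnitalNormedRing A] [NormedSpace ℂ A] (e : ℕ → A) : Prop :=
  ∀ (X : Type) [NormedAddCommGroup X] [NormedSpace ℂ X] [CompleteSpace X]
    (L R : A →L[ℂ] X →L[ℂ] X) (D : A →L[ℂ] (X →L[ℂ] ℂ)), IsBimod L R → IsDualDer L R D →
    SeqInner e L R D

/-- `e_n` are idempotents of norm at most 1 with `e_n a -> a` for all `a`. -/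
def IsIdemUnit {A : Type} [NonUnitalNormedRing A] (e : ℕ → A) : Prop :=
  (∀ n, e n * e n = e n ∧ ‖e n‖ ≤ 1) ∧ ∀ a : A, Tendsto (fun n => e n * a) atTop (𝓝 a)

theorem result :
    ∃ (A : Type) (_ : NonUnitalNormedCommRing A) (_ : NormedSpace ℂ A)
      (_ : IsScalarTower ℂ A A) (_ : SMulCommClass ℂ A A) (_ : CompleteSpace A) (e : ℕ → A),
      IsIdemUnit e ∧ (∀ a : A, (∀ χ : A →ₙₐ[ℂ] ℂ, χ a = 0) → a = 0) ∧
      SeqAmenable A e ∧ ¬ BddApproxContractible A := by
  refine ⟨Pool.Agent.H7.BAA.TA, Pool.Agent.H7.BAA.instNCR, Pool.Agent.H7.BAA.instNS,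
    Pool.Agent.H7.BAA.instST, Pool.Agent.H7.BAA.instSC, Pool.Agent.H7.BAA.instCS,
    Pool.Agent.H7.BAA.e, ?_, ?_, ?_, ?_⟩
  · exact ⟨fun n => ⟨Pool.Agent.H7.BAA.e_idem n, Pool.Agent.H7.BAA.e_norm n⟩,
      Pool.Agent.H7.BAA.e_tendsto⟩
  · exact Pool.Agent.H7.BAA.semisimple
  · intro X _ _ _ L R D hB hD
    exact Pool.Agent.H7.BAA.baa_seq L R D hB.1 hB.2.1 hB.2.2 hD Pool.Agent.H7.BAA.TA_comm
      Pool.Agent.H7.BAA.e Pool.Agent.H7.BAA.e_idem Pool.Agent.H7.BAA.e_norm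
      Pool.Agent.H7.BAA.inv_bound Pool.Agent.H7.BAA.TA_dense Pool.Agent.H7.BAA.e_tendsto
  · intro h
    apply Pool.Agent.H7.BAA.not_bac
    intro X _ _ _ L R h1 h2 h3 D hD
    exact h X L R D ⟨h1, h2, h3⟩ hD

end Pool.Agent.Results.MP_0a1835_an.CommutativeExample
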